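import Pool.Agent.H575R2.Farkas
import Pool.Agent.Results.MP_23e236_ag.CollisionColouring

set_option autoImplicit false

/-!
# Curve classes on `M̄_{0,n}` that are effective sums of F-curves

The marks are `0, …, p-1` (the type `Fin p`) and `∞`, so `n = p + 1`; see
`Pool.Agent.Results.MP_23e236_ag.CollisionColouring` for the definitions of a numerical curve
class, of the colouring condition and of the curves on which the marks move linearly.
-/

namespace Pool.Agent.Results.MP_159100_ag.ColourableCurves

open Finset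
open Pool.Agent.Results.MP_23e236_ag.CollisionColouring

variable {p : ℕ}

/-- The types of F-curves: partitions `A, B, C, (the rest, with ∞)` of the marks. -/
abbrev FType (p : ℕ) : Type :=
  {t : Finset (Fin p) × Finset (Fin p) × Finset (Fin p) //
    t.1.Nonempty ∧ t.2.1.Nonempty ∧ t.2.2.Nonempty ∧
      Disjoint t.1 t.2.1 ∧ Disjoint t.1 t.2.2 ∧ Disjoint t.2.1 t.2.2}

/-- The intersection number of the F-curve of type `t = (A, B, C)` with `δ_S`. -/
noncomputable def inter (t : FType p) (S : Finset (Fin p)) : ℝ :=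
  (if S = t.1.1 ∪ t.1.2.1 then 1 else 0) + (if S = t.1.1 ∪ t.1.2.2 then 1 else 0) +
    (if S = t.1.2.1 ∪ t.1.2.2 then 1 else 0) - (if S = t.1.1 then 1 else 0) -
    (if S = t.1.2.1 then 1 else 0) - (if S = t.1.2.2 then 1 else 0) -
    (if S = t.1.1 ∪ t.1.2.1 ∪ t.1.2.2 then 1 else 0)

/-- A nonnegative combination of F-curves: it has the same intersection numbers with all boundary
divisors `δ_S`, `2 ≤ |S| < p` (they span `N^1`), so it is the same class in `N_1`. -/
def InFCone (m : Finset (Fin p) → ℕ) : Prop :=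
  ∃ w : FType p → ℝ, (∀ t, 0 ≤ w t) ∧
    ∀ S : Finset (Fin p), 2 ≤ S.card → S.card < p → (m S : ℝ) = ∑ t, w t * inter t S

/-- The index set of the boundary divisors. -/
abbrev Bd (p : ℕ) : Type := {S : Finset (Fin p) // 2 ≤ S.card ∧ S.card < p}

open Classical in
/-- Extension by zero. -/
noncomputable def ext (u : Bd p → ℝ) (S : Finset (Fin p)) : ℝ :=
  if h : 2 ≤ S.card ∧ S.card < p then u ⟨S, h⟩ else 0

lemma ext_add (u v : Bd p → ℝ) (S : Finset (Fin p)) : ext (u + v) S = ext u S + ext v S := by
  unfold ext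
  split_ifs
  · rfl
  · simp

lemma ext_smul (a : ℝ) (u : Bd p → ℝ) (S : Finset (Fin p)) : ext (a • u) S = a * ext u S := by
  unfold ext
  split_ifs
  · rfl
  · simp

lemma ext_div (u : Bd p → ℝ) : IsDivisor (ext u) := by
  refine ⟨fun S hS => ?_, ?_⟩
  · unfold ext
    rw [dif_neg (by omega)]
  · unfold ext
    rw [dif_neg]
    rw [card_univ, Fintype.card_fin]
    omega

/-- The degree on a type of F-curves. -/
noncomputable def fdeg (t : FType p) : (Bd p → ℝ) →ₗ[ℝ] ℝ where
  toFun u := ext u (t.1.1 ∪ t.1.2.1) + ext u (t.1.1 ∪ t.1.2.2) + ext u (t.1.2.1 ∪ t.1.2.2) -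
    ext u t.1.1 - ext u t.1.2.1 - ext u t.1.2.2 - ext u (t.1.1 ∪ t.1.2.1 ∪ t.1.2.2)
  map_add' u v := by simp only [ext_add]; ring
  map_smul' a u := by simp only [ext_smul, RingHom.id_apply, smul_eq_mul]; ring

/-- The degree on the curve. -/
noncomputable def cdeg (m : Finset (Fin p) → ℕ) : (Bd p → ℝ) →ₗ[ℝ] ℝ where
  toFun u := degree (ext u) m
  map_add' u v := by
    unfold degree
    rw [← sum_add_distrib]
    refine sum_congr rfl fun S _ => ?_
    rw [ext_add]; ring
  map_smul' a u := by
    unfold degree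
    rw [RingHom.id_apply, smul_eq_mul, mul_sum]
    refine sum_congr rfl fun S _ => ?_
    rw [ext_smul]; ring

open Classical in
lemma ext_single (S : Bd p) (T : Finset (Fin p)) :
    ext (fun R => if R = S then 1 else 0) T = if S.1 = T then 1 else 0 := by
  unfold ext
  by_cases hT : 2 ≤ T.card ∧ T.card < p
  · rw [dif_pos hT]
    show (if (⟨T, hT⟩ : Bd p) = S then (1 : ℝ) else 0) = _
    by_cases h : S.1 = T
    · rw [if_pos h, if_pos]
      exact Subtype.ext h.symm
    · rw [if_neg h, if_neg]
      intro h'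
      exact h (congrArg Subtype.val h').symm
  · rw [dif_neg hT, if_neg]
    rintro rfl
    exact hT S.2

/-- From nonnegativity on all F-nef divisors to the cone of F-curves. -/
theorem inFCone (m : Finset (Fin p) → ℕ)
    (h : ∀ c : Finset (Fin p) → ℝ, IsDivisor c → FNef c → 0 ≤ degree c m) : InFCone m := by
  classical
  let e := Fintype.equivFin (FType p)
  obtain ⟨w, hw, hf⟩ := H575R2.farkas_lin (Fintype.card (FType p))
    (fun i => -fdeg (e.symm i)) (-cdeg m) (by
      intro u hu
      have h1 : FNef (ext u) := by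
        intro A B C hA hB hC hAB hAC hBC
        have h2 := hu (e ⟨(A, B, C), hA, hB, hC, hAB, hAC, hBC⟩)
        rw [Equiv.symm_apply_apply] at h2
        have h3 : -fdeg (⟨(A, B, C), hA, hB, hC, hAB, hAC, hBC⟩ : FType p) u =
          -(ext u (A ∪ B) + ext u (A ∪ C) + ext u (B ∪ C) - ext u A - ext u B - ext u C -
            ext u (A ∪ B ∪ C)) := rfl
        rw [LinearMap.neg_apply, h3] at h2
        linarith
      have h4 := h (ext u) (ext_div u) h1
      have h5 : (-cdeg m) u = -degree (ext u) m := rfl
      rw [h5]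
      linarith)
  refine ⟨fun t => w (e t), fun t => hw _, fun S hS1 hS2 => ?_⟩
  have h6 := hf (fun R => if R = (⟨S, hS1, hS2⟩ : Bd p) then 1 else 0)
  have h7 : (-cdeg m) (fun R => if R = (⟨S, hS1, hS2⟩ : Bd p) then 1 else 0) = -(m S : ℝ) := by
    show -degree (ext fun R => if R = (⟨S, hS1, hS2⟩ : Bd p) then 1 else 0) m = -(m S : ℝ)
    unfold degree
    congr 1
    rw [sum_eq_single S]
    · rw [ext_single]
      simp
    · intro T _ hT
      rw [ext_single, if_neg (fun h => hT h.symm)]
      simp
    · intro h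
      exact absurd (mem_univ S) h
  rw [h7] at h6
  have h8 : ∀ t : FType p, w (e t) * (-fdeg t) (fun R => if R = (⟨S, hS1, hS2⟩ : Bd p) then 1 else 0)
      = -(w (e t) * inter t S) := by
    intro t
    have h9 : (-fdeg t) (fun R => if R = (⟨S, hS1, hS2⟩ : Bd p) then 1 else 0) = -inter t S := by
      show -(ext _ _ + ext _ _ + ext _ _ - ext _ _ - ext _ _ - ext _ _ - ext _ _) = _
      simp only [ext_single]
      rfl
    rw [h9]; ring
  have h10 : ∑ i, w i * (-fdeg (e.symm i)) (fun R => if R = (⟨S, hS1, hS2⟩ : Bd p) then 1 else 0) =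
      ∑ t, -(w (e t) * inter t S) := by
    rw [← Equiv.sum_comp e]
    refine sum_congr rfl fun t _ => ?_
    rw [Equiv.symm_apply_apply, h8]
  rw [h10, sum_neg_distrib] at h6
  linarith

/-- **Main theorem.** Let `m S = C · δ_S` be the intersection numbers of a numerical curve class
`C` on `M̄_{0,p+1}` with all `m S ≥ 0`, and `d = C · ψ_∞`.
1. If the collisions of `C` can be coloured with `d` colours along the order of the marks, then
   `C` is a nonnegative combination of F-curves.
2. If `d = 1`, then `C` is a nonnegative combination of F-curves.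
3. The curve `t ↦ (a_i + b_i t)_i, ∞` over any field is a nonnegative combination of F-curves. -/
theorem result (p : ℕ) :
    (∀ (m : Finset (Fin p) → ℕ) (d : ℕ), IsCurve m d → Colourable m d → InFCone m) ∧
      (∀ m : Finset (Fin p) → ℕ, IsCurve m 1 → InFCone m) ∧
      (∀ (k : Type) [Field k] (a b : Fin p → k),
        (∀ i j : Fin p, i ≠ j → a i ≠ a j ∨ b i ≠ b j) → InFCone (collisions a b)) := by
  classical
  refine ⟨fun m d hm hcol => inFCone m fun c hc hF => colour hc hF hm hcol,
    fun m hm => inFCone m fun c hc hF => deg_one hc hF hm, fun k _ a b hab => ?_⟩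
  obtain ⟨w, hw, h⟩ := inFCone
    (fun S : Finset (Fin p) => if 2 ≤ S.card ∧ S.card < p then collisions a b S else 0)
    (fun c hc hF => by
      have h1 := linear hc hF hab
      rw [sum_filter] at h1
      unfold degree
      refine h1.trans_eq (sum_congr rfl fun S _ => ?_)
      by_cases h2 : 2 ≤ S.card ∧ S.card < p
      · simp only [if_pos h2]
      · simp only [if_neg h2, Nat.cast_zero, mul_zero])
  refine ⟨w, hw, fun S h1 h2 => ?_⟩
  rw [← h S h1 h2]
  simp only [if_pos (And.intro h1 h2)]

end Pool.Agent.Results.MP_159100_ag.ColourableCurves
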